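import Pool.Agent.NDR.StmtsR

/-!
Squad NDR, row PRZ: projection to the level `κ · (m - 1) = N m_z` and elimination of `z`.
-/

set_option autoImplicit false

namespace Pool.Agent.NDR.H2

open Pool.Agent.NDR

variable {σ : Type} [Fintype σ]

/-- the level of the exponent in the coordinates `x` -/
def slv (κ : σ → ℕ) (m : σ → ℤ) : ℤ := ∑ i, (κ i : ℤ) * (m i - 1)

/-- the lift to the level zero -/
def lft (κ : σ → ℕ) (N : ℕ) (m : σ → ℤ) : Option σ → ℤ := hx (slv κ m / N) m

theorem klv_hx (κ : σ → ℕ) (N : ℕ) (k : ℤ) (m : σ → ℤ) :
    klv κ N (hx k m) = slv κ m - N * k := rfl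

theorem klv_lft (κ : σ → ℕ) (N : ℕ) (m : σ → ℤ) :
    klv κ N (lft κ N m) = slv κ m % N := by
  unfold lft
  rw [klv_hx, Int.emod_def]

theorem lft_some (κ : σ → ℕ) (N : ℕ) (m : σ → ℤ) (i : σ) : lft κ N m (some i) = m i := rfl

theorem lft_none (κ : σ → ℕ) (N : ℕ) (m : σ → ℤ) : lft κ N m none = slv κ m / N := rfl

theorem lft_inj (κ : σ → ℕ) (N : ℕ) : Function.Injective (lft κ N) := by
  intro a b hab
  funext i
  have h := congrFun hab (some i)
  exact h

theorem slv_sub (κ : σ → ℕ) (m b : σ → ℤ) : slv κ (m - b) = slv κ m - ∑ i, (κ i : ℤ) * b i := by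
  unfold slv
  rw [← Finset.sum_sub_distrib]
  refine Finset.sum_congr rfl fun i _ => ?_
  rw [Pi.sub_apply]
  ring

theorem klv_sub (κ : σ → ℕ) (N : ℕ) (m a : Option σ → ℤ) :
    klv κ N (m - a) = klv κ N m - (∑ i, (κ i : ℤ) * a (some i) - N * a none) := by
  unfold klv
  have h : ∑ i, (κ i : ℤ) * ((m - a) (some i) - 1) =
      ∑ i, (κ i : ℤ) * (m (some i) - 1) - ∑ i, (κ i : ℤ) * a (some i) := by
    rw [← Finset.sum_sub_distrib]
    refine Finset.sum_congr rfl fun i _ => ?_
    rw [Pi.sub_apply]
    ring
  rw [h, Pi.sub_apply]
  ring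

theorem lft_sub (κ : σ → ℕ) (N : ℕ) (hN : 0 < N) (m b : σ → ℤ)
    (hb : ∑ i, (κ i : ℤ) * b i = N) : lft κ N (m - b) = lft κ N m - hx 1 b := by
  have hN' : (N : ℤ) ≠ 0 := by exact_mod_cast hN.ne'
  funext v
  cases v with
  | none =>
    rw [lft_none, Pi.sub_apply, lft_none, slv_sub, hb]
    have h1 : slv κ m - (N : ℤ) = slv κ m + (-1) * N := by ring
    rw [h1, Int.add_mul_ediv_right _ _ hN']
    rfl
  | some i => rfl

theorem slv_one (κ : σ → ℕ) : slv κ (fun i => if κ i = 0 then 0 else 1) = 0 := by
  unfold slv
  refine Finset.sum_eq_zero fun i _ => ?_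
  by_cases h : κ i = 0
  · simp [h]
  · simp [h]

theorem lft_one (κ : σ → ℕ) (N : ℕ) :
    lft κ N (fun i => if κ i = 0 then 0 else 1) = one1 (sup κ) := by
  classical
  funext v
  cases v with
  | none =>
    rw [lft_none, slv_one, Int.zero_ediv]
    rfl
  | some i =>
    rw [lft_some]
    unfold one1 sup
    simp only [Option.elim_some, Finset.mem_filter, Finset.mem_univ, true_and]
    by_cases h : κ i = 0
    · simp [h]
    · simp [h]

theorem prz : PrzStmt := by
  classical
  intro σ _ K _ _ A c t κ N P β X h hN hP ht htn hA hE hX hh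
  have hN' : (N : ℤ) ≠ 0 := by exact_mod_cast hN.ne'
  have hNK : (N : K) ≠ 0 := by exact_mod_cast hN.ne'
  -- the new family
  set G : σ → (Option σ → ℤ) →₀ K := fun i => h (some i) + ((κ i : K) / N) • h none with hG
  set h' : σ → (σ → ℤ) →₀ K := fun i =>
    Finsupp.comapDomain (lft κ N) ((G i).filter fun m => klv κ N m = 0)
      (lft_inj κ N).injOn with hh'
  have hval : ∀ i m, h' i m = if klv κ N (lft κ N m) = 0 then G i (lft κ N m) else 0 := by
    intro i m
    rw [hh']
    change Finsupp.comapDomain _ _ _ m = _
    rw [Finsupp.comapDomain_apply, Finsupp.filter_apply]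
  have hGv : ∀ i m, G i m = h (some i) m + (κ i : K) / N * h none m := by
    intro i m
    rw [hG]
    change (h (some i) + ((κ i : K) / N) • h none) m = _
    rw [Finsupp.add_apply, Finsupp.smul_apply, smul_eq_mul]
  refine ⟨h', ?_, ?_⟩
  · ext m'
    rw [Finsupp.finsetSum_apply]
    simp only [opB_apply]
    by_cases hk : klv κ N (lft κ N m') = 0
    · -- the value of (E) at the lift
      set m := lft κ N m' with hm
      have hE' := congrArg (fun F : (Option σ → ℤ) →₀ K => F m) hE
      simp only [Finsupp.add_apply, Finsupp.finsetSum_apply, opB_apply] at hE'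
      have hXm : X m = 0 := by
        by_contra hne
        have := hX m (Finsupp.mem_support_iff.2 hne)
        omega
      rw [hXm, add_zero] at hE'
      -- the left side
      have hL : Finsupp.single (fun i => if κ i = 0 then (0 : ℤ) else 1) β m' =
          Finsupp.single (one1 (sup κ)) β m := by
        rw [Finsupp.single_apply, Finsupp.single_apply]
        have h1 : ((fun i => if κ i = 0 then (0 : ℤ) else 1) = m') ↔ (one1 (sup κ) = m) := by
          rw [hm, ← lft_one κ N]
          exact (lft_inj κ N).eq_iff.symm
        by_cases h2 : (fun i => if κ i = 0 then (0 : ℤ) else 1) = m'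
        · rw [if_pos h2, if_pos (h1.1 h2)]
        · rw [if_neg h2, if_neg fun h3 => h2 (h1.2 h3)]
      rw [hL, hE']
      -- the sum over A reduces to the level N
      set A₀ := A.filter fun a => ∑ i, (κ i : ℤ) * a (some i) = N with hA₀
      have hred : ∀ v ∈ ih (sup κ), ∑ a ∈ A, c a * ((a v : ℤ) : K) * h v (m - a) =
          ∑ a ∈ A₀, c a * ((a v : ℤ) : K) * h v (m - a) := by
        intro v hv
        rw [hA₀, Finset.sum_filter]
        refine Finset.sum_congr rfl fun a ha => ?_
        split_ifs with h1
        · rfl
        · have h2 : h v (m - a) = 0 := by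
            by_contra hne
            have h3 := (hh v hv _ (Finsupp.mem_support_iff.2 hne)).1
            rw [klv_sub, hk, (hA a ha).1] at h3
            have h4 := (hA a ha).2
            omega
          rw [h2, mul_zero]
      have hsome : ∀ i ∈ sup κ, some i ∈ ih (sup κ) := fun i hi => by
        unfold ih
        rw [Finset.mem_insertNone]
        intro a ha
        rw [Option.mem_def, Option.some.injEq] at ha
        rw [← ha]
        exact hi
      have hnone : none ∈ ih (sup κ) := by
        unfold ih
        rw [Finset.mem_insertNone]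
        intro a ha
        simp at ha
      -- split the sum over ih
      have hsplit : ∀ F : Option σ → K, ∑ v ∈ ih (sup κ), F v =
          F none + ∑ i ∈ sup κ, F (some i) := by
        intro F
        unfold ih
        exact Finset.sum_insertNone _ _
      rw [Finset.sum_congr rfl fun v hv => by rw [hred v hv], hsplit]
      -- the right side
      have hR : ∀ i ∈ sup κ, ∑ b ∈ fcA A κ N, c (hx 1 b) * ((b i : ℤ) : K) * h' i (m' - b) =
          ∑ a ∈ A₀, c a * ((a (some i) : ℤ) : K) * G i (m - a) := by
        intro i _
        unfold fcA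
        rw [Finset.sum_image]
        · refine Finset.sum_congr rfl fun a ha => ?_
          have h1 := (Finset.mem_filter.1 ha)
          have h2 : hx 1 (fun j => a (some j)) = a := by
            funext v
            cases v with
            | none => exact (hA a h1.1).1.symm
            | some j => rfl
          rw [h2, hval]
          have h3 : lft κ N (m' - fun j => a (some j)) = m - a := by
            rw [lft_sub κ N hN m' _ h1.2, h2]
          rw [h3, klv_sub, hk, (hA a h1.1).1, h1.2]
          simp
        · intro a ha b hb hab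
          have h1 := (Finset.mem_filter.1 ha).1
          have h2 := (Finset.mem_filter.1 hb).1
          funext v
          cases v with
          | none => rw [(hA a h1).1, (hA b h2).1]
          | some j => exact congrFun hab j
      have hR2 : ∀ i, h' i m' = G i m := by
        intro i
        rw [hval, if_pos hk]
      -- Euler
      have hEu : ∀ a ∈ A₀, ∑ i ∈ sup κ, (κ i : K) / N * ((a (some i) : ℤ) : K) = 1 := by
        intro a ha
        have h1 := (Finset.mem_filter.1 ha).2
        have h2 : ∑ i ∈ sup κ, (κ i : K) / N * ((a (some i) : ℤ) : K) =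
            (∑ i, (κ i : K) * ((a (some i) : ℤ) : K)) / N := by
          rw [Finset.sum_div]
          unfold sup
          rw [Finset.sum_filter]
          refine Finset.sum_congr rfl fun i _ => ?_
          split_ifs with h3
          · ring
          · have h4 : κ i = 0 := not_not.1 h3
            rw [h4]
            simp
        rw [h2]
        have h3 : ∑ i, (κ i : K) * ((a (some i) : ℤ) : K) = (N : K) := by
          have := congrArg (fun z : ℤ => (z : K)) h1
          push_cast at this
          exact this
        rw [h3, div_self hNK]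
      have hEm : ∑ i ∈ sup κ, (κ i : K) / N * ((m (some i) : ℤ) : K) =
          ((m none : ℤ) : K) + t none := by
        have h2 : ∑ i ∈ sup κ, (κ i : K) / N * ((m (some i) : ℤ) : K) =
            (∑ i, (κ i : K) * ((m (some i) : ℤ) : K)) / N := by
          rw [Finset.sum_div]
          unfold sup
          rw [Finset.sum_filter]
          refine Finset.sum_congr rfl fun i _ => ?_
          split_ifs with h3
          · ring
          · have h4 : κ i = 0 := not_not.1 h3
            rw [h4]
            simp
        rw [h2, div_eq_iff hNK]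
        have h3 : ∑ i, (κ i : ℤ) * m (some i) = N * m none + ∑ i, (κ i : ℤ) := by
          have h4 : ∑ i, (κ i : ℤ) * (m (some i) - 1) =
              ∑ i, (κ i : ℤ) * m (some i) - ∑ i, (κ i : ℤ) := by
            rw [← Finset.sum_sub_distrib]
            refine Finset.sum_congr rfl fun i _ => ?_
            ring
          have h5 := hk
          unfold klv at h5
          rw [h4] at h5
          linarith
        have h6 := congrArg (fun z : ℤ => (z : K)) h3
        push_cast at h6
        rw [h6]
        push_cast at htn
        rw [add_mul, mul_comm (t none) _, htn]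
        ring
      have hRS : ∑ i ∈ sup κ, (∑ b ∈ fcA A κ N, c (hx 1 b) * ((b i : ℤ) : K) * h' i (m' - b) +
          (((m' i : ℤ) : K) + (0 : σ → K) i) * h' i m') =
          ∑ i ∈ sup κ, (∑ a ∈ A₀, c a * ((a (some i) : ℤ) : K) * G i (m - a) +
            (((m' i : ℤ) : K) + (0 : σ → K) i) * G i m) :=
        Finset.sum_congr rfl fun i hi => by rw [hR i hi, hR2 i]
      rw [hRS]
      simp only [hGv, ht, Pi.zero_apply, add_zero]
      -- expand
      have hA1 : ∀ i ∈ sup κ, ∑ a ∈ A₀, c a * ((a (some i) : ℤ) : K) *
          (h (some i) (m - a) + (κ i : K) / N * h none (m - a)) +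
          ((m' i : ℤ) : K) * (h (some i) m + (κ i : K) / N * h none m) =
          (∑ a ∈ A₀, c a * ((a (some i) : ℤ) : K) * h (some i) (m - a) +
            ((m (some i) : ℤ) : K) * h (some i) m) +
          (∑ a ∈ A₀, c a * h none (m - a) * ((κ i : K) / N * ((a (some i) : ℤ) : K)) +
            h none m * ((κ i : K) / N * ((m (some i) : ℤ) : K))) := by
        intro i _
        have h1 : m (some i) = m' i := rfl
        rw [h1]
        have h2 : ∑ a ∈ A₀, c a * ((a (some i) : ℤ) : K) *
          (h (some i) (m - a) + (κ i : K) / N * h none (m - a)) =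
          ∑ a ∈ A₀, c a * ((a (some i) : ℤ) : K) * h (some i) (m - a) +
          ∑ a ∈ A₀, c a * h none (m - a) * ((κ i : K) / N * ((a (some i) : ℤ) : K)) := by
          rw [← Finset.sum_add_distrib]
          refine Finset.sum_congr rfl fun a _ => ?_
          ring
        rw [h2]
        ring
      have key1 : ∑ i ∈ sup κ, (∑ a ∈ A₀, c a * h none (m - a) *
          ((κ i : K) / N * ((a (some i) : ℤ) : K)) +
          h none m * ((κ i : K) / N * ((m (some i) : ℤ) : K))) =
          ∑ a ∈ A₀, c a * ((a none : ℤ) : K) * h none (m - a) +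
            (((m none : ℤ) : K) + t none) * h none m := by
        have h7 : ∑ a ∈ A₀, ∑ i ∈ sup κ, c a * h none (m - a) *
            ((κ i : K) / N * ((a (some i) : ℤ) : K)) =
            ∑ a ∈ A₀, c a * ((a none : ℤ) : K) * h none (m - a) := by
          refine Finset.sum_congr rfl fun a ha => ?_
          rw [← Finset.mul_sum, hEu a ha, (hA a (Finset.mem_filter.1 ha).1).1]
          push_cast
          ring
        rw [Finset.sum_add_distrib, Finset.sum_comm, ← Finset.mul_sum, hEm, h7]
        ring
      rw [Finset.sum_congr rfl hA1]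
      rw [Finset.sum_add_distrib (s := sup κ) (f := fun i => ∑ a ∈ A₀, c a *
        ((a (some i) : ℤ) : K) * h (some i) (m - a) + ((m (some i) : ℤ) : K) * h (some i) m)]
      rw [key1]
      ring
    · -- no lift
      have hne : slv κ m' % N ≠ 0 := by rwa [klv_lft] at hk
      have hL : Finsupp.single (fun i => if κ i = 0 then (0 : ℤ) else 1) β m' = 0 := by
        rw [Finsupp.single_apply, if_neg]
        intro h1
        apply hne
        rw [← h1, slv_one, Int.zero_emod]
      rw [hL]
      symm
      refine Finset.sum_eq_zero fun i _ => ?_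
      have h1 : h' i m' = 0 := by rw [hval, if_neg hk]
      rw [h1, mul_zero, add_zero]
      refine Finset.sum_eq_zero fun b hb => ?_
      unfold fcA at hb
      obtain ⟨a, ha, rfl⟩ := Finset.mem_image.1 hb
      have h2 := (Finset.mem_filter.1 ha).2
      have h3 : h' i (m' - fun j => a (some j)) = 0 := by
        rw [hval, if_neg]
        rw [klv_lft, slv_sub, h2]
        have h4 : slv κ m' - (N : ℤ) = slv κ m' + (-1) * N := by ring
        rw [h4, Int.add_mul_emod_self_right]
        exact hne
      rw [h3, mul_zero]
  · intro i hi m' hm'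
    have h1 := Finsupp.mem_support_iff.1 hm'
    rw [hval] at h1
    have hk : klv κ N (lft κ N m') = 0 := by
      by_contra h2
      rw [if_neg h2] at h1
      exact h1 rfl
    rw [if_pos hk, hGv] at h1
    have hor : h (some i) (lft κ N m') ≠ 0 ∨ h none (lft κ N m') ≠ 0 := by
      by_contra h2
      push Not at h2
      rw [h2.1, h2.2] at h1
      simp at h1
    have hsome : some i ∈ ih (sup κ) := by
      unfold ih
      rw [Finset.mem_insertNone]
      intro a ha
      rw [Option.mem_def, Option.some.injEq] at ha
      rw [← ha]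
      exact hi
    have hnone : none ∈ ih (sup κ) := by
      unfold ih
      rw [Finset.mem_insertNone]
      intro a ha
      simp at ha
    rcases hor with h2 | h2
    · have h3 := hh _ hsome _ (Finsupp.mem_support_iff.2 h2)
      refine ⟨?_, slv κ m' / N, hk, some i, hsome, Finsupp.mem_support_iff.2 h2⟩
      intro j hj
      have h4 := h3.2 (some j) (Finset.mem_map.2 ⟨j, hj, rfl⟩)
      exact ⟨h4.1, fun hne => h4.2 fun h5 => hne (Option.some.inj h5)⟩
    · have h3 := hh _ hnone _ (Finsupp.mem_support_iff.2 h2)
      refine ⟨?_, slv κ m' / N, hk, none, hnone, Finsupp.mem_support_iff.2 h2⟩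
      intro j hj
      have h4 := h3.2 (some j) (Finset.mem_map.2 ⟨j, hj, rfl⟩)
      exact ⟨h4.1, fun _ => h4.2 (Option.some_ne_none j)⟩

end Pool.Agent.NDR.H2
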